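import Pool.Agent.helper12.OB.SpecB

set_option autoImplicit false

namespace Pool.Agent.OB

open Pool.Agent.helper58.DC Pool.Agent.DI Pool.Agent.GR

/-- the blocks of a tuple -/
def BLK_e (G : Type) (m n : ℕ) : (Fin m → Fin n → G) ≃ (Fin (m * n) → G) :=
  (Equiv.curry (Fin m) (Fin n) G).symm.trans (Equiv.arrowCongr finProdFinEquiv (Equiv.refl G))

theorem BLK_e_apply (G : Type) (m n : ℕ) (z : Fin m → Fin n → G) (j : Fin (m * n)) :
    BLK_e G m n z j = z (finProdFinEquiv.symm j).1 (finProdFinEquiv.symm j).2 := rfl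

theorem BLK_e_apply' (G : Type) (m n : ℕ) (z : Fin m → Fin n → G) (x : Fin m × Fin n) :
    BLK_e G m n z (finProdFinEquiv x) = z x.1 x.2 := by
  rw [BLK_e_apply, Equiv.symm_apply_apply]

theorem BLK_qq (G : Type) [Group G] (m n : ℕ) (z : Fin m → Fin n → G) :
    qq (BLK_e G m n z) = qq (fun i => qq (z i)) := by
  unfold qq
  rw [List.ofFn_mul, List.prod_flatten, List.map_ofFn]
  congr 1
  congr 1
  funext i
  simp only [Function.comp]
  congr 1
  congr 1
  funext j
  have h : (⟨(i : ℕ) * n + j, by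
      calc
        (i : ℕ) * n + j < (i + 1) * n :=
          (Nat.add_lt_add_left j.prop _).trans_eq (by rw [Nat.add_mul, Nat.one_mul])
        _ ≤ _ := Nat.mul_le_mul_right _ i.prop⟩ : Fin (m * n)) = finProdFinEquiv (i, j) := by
    apply Fin.ext
    simp only [finProdFinEquiv_apply_val]
    ring
  rw [h, BLK_e_apply']

theorem BLK : BLK_stmt := by
  intro G _ p m n
  refine ⟨BLK_e G m n, BLK_qq G m n, ?_, ?_, ?_⟩
  · intro z
    ext g
    simp only [Set.mem_range, Set.mem_iUnion]
    constructor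
    · rintro ⟨j, rfl⟩
      exact ⟨(finProdFinEquiv.symm j).1, (finProdFinEquiv.symm j).2, rfl⟩
    · rintro ⟨i, j, rfl⟩
      exact ⟨finProdFinEquiv (i, j), BLK_e_apply' G m n z (i, j)⟩
  · intro z
    rw [← Fintype.prod_prod_type' (fun i j => tp p (z i j))]
    refine (Fintype.prod_equiv finProdFinEquiv _ _ ?_).symm
    intro x
    rw [BLK_e_apply']
  · intro g z
    rfl

end Pool.Agent.OB
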